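import Pool.Agent.Helper79.PN.Lem

set_option autoImplicit false

/-!
Nonsingular parameters exist (MP_7c9036_mp, module NSX).
-/

open scoped Classical

namespace Pool.Agent.Helper8.PN

open Pool.Agent.Helper79.PN

private theorem re_zeta_pow (j : ℕ) : (zeta ^ j).re ≠ 0 := by
  have h1 : zeta ^ j = Complex.exp (((2 * Real.pi * j / 5 : ℝ) : ℂ) * Complex.I) := by
    unfold zeta
    rw [← Complex.exp_nat_mul]
    congr 1
    push_cast
    ring
  rw [h1, Complex.exp_ofReal_mul_I_re]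
  intro h2
  obtain ⟨k, hk⟩ := Real.cos_eq_zero_iff.1 h2
  have hpi : Real.pi ≠ 0 := Real.pi_ne_zero
  have h3 : (4 : ℝ) * j = 5 * (2 * k + 1) := by
    have h4 : Real.pi * ((4 : ℝ) * j) = Real.pi * (5 * (2 * k + 1)) := by
      field_simp at hk
      linear_combination Real.pi * hk
    exact mul_left_cancel₀ hpi h4
  have h5 : (4 : ℤ) * j = 5 * (2 * k + 1) := by exact_mod_cast h3
  omega

private theorem hh_real (t : ℝ) (K : Lam) (j : ZMod 5) :
    hh (t : ℂ) K j = t * (zeta ^ j.val).re + hh 0 K j := by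
  unfold hh yy
  rw [zero_add, add_mul, Complex.add_re, Complex.re_ofReal_mul, Complex.conj_re]

private theorem countable_aux (K : Lam) (j : ZMod 5) (c : ℝ) :
    {t : ℝ | hh (t : ℂ) K j = c}.Countable := by
  apply Set.Subsingleton.countable
  intro t ht t' ht'
  simp only [Set.mem_ofPred_eq] at ht ht'
  rw [hh_real] at ht ht'
  have h1 : t * (zeta ^ j.val).re = t' * (zeta ^ j.val).re := by linarith
  exact mul_right_cancel₀ (re_zeta_pow j.val) h1

theorem st_NSX : ST_NSX := by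
  have hB : (⋃ z : Lam × ZMod 5, (({t : ℝ | hh (t : ℂ) z.1 z.2 = -g / 2} ∪
      {t : ℝ | hh (t : ℂ) z.1 z.2 = (g + 1) / 2}) ∪
      ({t : ℝ | hh (t : ℂ) z.1 z.2 = -(g + 1) / 2} ∪
      {t : ℝ | hh (t : ℂ) z.1 z.2 = g / 2}))).Countable := by
    refine Set.countable_iUnion (fun z => ?_)
    exact ((countable_aux z.1 z.2 _).union (countable_aux z.1 z.2 _)).union
      ((countable_aux z.1 z.2 _).union (countable_aux z.1 z.2 _))
  obtain ⟨t, ht⟩ := (hB.dense_compl ℝ).nonempty
  refine ⟨(t : ℂ), fun K j => ?_⟩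
  simp only [Set.mem_compl_iff, Set.mem_iUnion, Set.mem_union, Set.mem_ofPred_eq, not_exists,
    not_or] at ht
  obtain ⟨⟨h1, h2⟩, h3, h4⟩ := ht (K, j)
  exact ⟨fun _ => h1, fun _ => h2, fun _ => h3, fun _ => h4⟩

end Pool.Agent.Helper8.PN
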