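import Pool.Agent.Helper79.PN.Lem

set_option autoImplicit false

/-!
Lower bound for one half of the special faces (MP_7c9036_mp, module LBL).
-/

open scoped Classical

namespace Pool.Agent.Helper8.PN

open Pool.Agent.Helper79.PN

private theorem ind_nn (p : Prop) : 0 ≤ ind p := by
  unfold ind
  split_ifs <;> norm_num

private theorem ind_le (p : Prop) : ind p ≤ 1 := by
  unfold ind
  split_ifs <;> norm_num

private theorem hasSum_aux (c : Lam × ZMod 5 → ℝ) (φ : ZMod 5 → Lam) (a : Lam → ℝ) (ha : Sq a)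
    (h0 : ∀ z, 0 ≤ c z) (h1 : ∀ z, c z ≤ 1) :
    HasSum (fun K => (∑ m, c (K - φ m, m)) * a K ^ 2)
      (∑' K, (∑ m, c (K - φ m, m)) * a K ^ 2) := by
  refine Summable.hasSum (Summable.of_nonneg_of_le
    (fun K => mul_nonneg (Finset.sum_nonneg (fun m _ => h0 _)) (sq_nonneg _)) (fun K => ?_)
    (Summable.mul_left 5 ha))
  refine mul_le_mul_of_nonneg_right ?_ (sq_nonneg _)
  calc ∑ m, c (K - φ m, m) ≤ ∑ _m : ZMod 5, (1 : ℝ) := Finset.sum_le_sum (fun m _ => h1 _)
    _ = 5 := by simp [ZMod.card]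

private theorem collect {ι : Type} {F G : ι → ℝ} {S : ℝ} (hG : HasSum G S)
    (h : ∀ z, F z = G z) : ∑' z, F z = S := (tsum_congr h).trans hG.tsum_eq

theorem st_LBL (hSMT : ST_SMT) : ST_LBL := by
  intro P s a b hs ha hb
  obtain ⟨_, h2, h3, _⟩ := hSMT
  have x0 : ∀ z : Lam × ZMod 5, 0 ≤ ind (X1 P z.1 z.2) := fun z => ind_nn _
  have x1 : ∀ z : Lam × ZMod 5, ind (X1 P z.1 z.2) ≤ 1 := fun z => ind_le _
  have t0 : ∀ z : Lam × ZMod 5, 0 ≤ ind (T1 P z.1 z.2) := fun z => ind_nn _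
  have t1 : ∀ z : Lam × ZMod 5, ind (T1 P z.1 z.2) ≤ 1 := fun z => ind_le _
  have xa : ∀ z : Lam × ZMod 5, |ind (X1 P z.1 z.2)| ≤ 1 := fun z => by
    rw [abs_of_nonneg (x0 z)]; exact x1 z
  have ta : ∀ z : Lam × ZMod 5, |ind (T1 P z.1 z.2)| ≤ 1 := fun z => by
    rw [abs_of_nonneg (t0 z)]; exact t1 z
  -- inequalities
  have i1 := h3 b a (fun z => ind (X1 P z.1 z.2)) (fun m => e (m + 1)) (fun m => e (m - 2))
    hb ha x0 x1 (25 / 26) (13 / 50) (by norm_num) (by norm_num) (by norm_num)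
  have i2 := h3 b a (fun z => ind (X1 P z.1 z.2)) (fun m => e (m - 1)) (fun m => e (m + 2))
    hb ha x0 x1 (25 / 26) (13 / 50) (by norm_num) (by norm_num) (by norm_num)
  have i3 := h3 b a (fun z => ind (X1 P z.1 z.2)) (fun m => e (m + 2) + e (m - 2)) (fun _ => 0)
    hb ha x0 x1 (25 / 26) (13 / 50) (by norm_num) (by norm_num) (by norm_num)
  have i4 := h3 b a (fun z => ind (T1 P z.1 z.2)) (fun _ => 0) (fun m => e (m + 1) + e (m - 1))
    hb ha t0 t1 (25 / 26) (13 / 50) (by norm_num) (by norm_num) (by norm_num)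
  have i5 := h3 a a (fun z => ind (X1 P z.1 z.2)) (fun m => e (m - 2))
    (fun m => e (m + 1) + e (m - 1)) ha ha x0 x1 (1 / 2) (1 / 2) (by norm_num) (by norm_num)
    (by norm_num)
  have i6 := h3 a a (fun z => ind (X1 P z.1 z.2)) (fun m => e (m + 2))
    (fun m => e (m + 1) + e (m - 1)) ha ha x0 x1 (1 / 2) (1 / 2) (by norm_num) (by norm_num)
    (by norm_num)
  have i7 := h3 a a (fun z => ind (X1 P z.1 z.2)) (fun _ => 0)
    (fun m => e (m + 2) + e (m - 2) + e m) ha ha x0 x1 (18 / 25) (25 / 72) (by norm_num)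
    (by norm_num) (by norm_num)
  have i8 := h3 a a (fun z => ind (T1 P z.1 z.2)) (fun m => e (m + 1) + e (m - 1))
    (fun m => e m) ha ha t0 t1 (3 / 10) (5 / 6) (by norm_num) (by norm_num) (by norm_num)
  -- summability over `Lam × ZMod 5`
  have s1 := (h2 b a (fun z => ind (X1 P z.1 z.2)) (fun m => e (m + 1)) (fun m => e (m - 2))
    hb ha xa).hasSum
  have s2 := (h2 b a (fun z => ind (X1 P z.1 z.2)) (fun m => e (m - 1)) (fun m => e (m + 2))
    hb ha xa).hasSum
  have s3 := (h2 b a (fun z => ind (X1 P z.1 z.2)) (fun m => e (m + 2) + e (m - 2)) (fun _ => 0)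
    hb ha xa).hasSum
  have s4 := (h2 b a (fun z => ind (T1 P z.1 z.2)) (fun _ => 0) (fun m => e (m + 1) + e (m - 1))
    hb ha ta).hasSum
  have s5 := (h2 a a (fun z => ind (X1 P z.1 z.2)) (fun m => e (m - 2))
    (fun m => e (m + 1) + e (m - 1)) ha ha xa).hasSum
  have s6 := (h2 a a (fun z => ind (X1 P z.1 z.2)) (fun m => e (m + 2))
    (fun m => e (m + 1) + e (m - 1)) ha ha xa).hasSum
  have s7 := (h2 a a (fun z => ind (X1 P z.1 z.2)) (fun _ => 0)
    (fun m => e (m + 2) + e (m - 2) + e m) ha ha xa).hasSum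
  have s8 := (h2 a a (fun z => ind (T1 P z.1 z.2)) (fun m => e (m + 1) + e (m - 1))
    (fun m => e m) ha ha ta).hasSum
  -- the sums over `Lam`
  have b1 := hasSum_aux (fun z => ind (X1 P z.1 z.2)) (fun m => e (m + 1)) b hb x0 x1
  have b2 := hasSum_aux (fun z => ind (X1 P z.1 z.2)) (fun m => e (m - 1)) b hb x0 x1
  have b3 := hasSum_aux (fun z => ind (X1 P z.1 z.2)) (fun m => e (m + 2) + e (m - 2)) b hb x0 x1
  have b4 := hasSum_aux (fun z => ind (T1 P z.1 z.2)) (fun _ => 0) b hb t0 t1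
  have a1 := hasSum_aux (fun z => ind (X1 P z.1 z.2)) (fun m => e (m - 2)) a ha x0 x1
  have a2 := hasSum_aux (fun z => ind (X1 P z.1 z.2)) (fun m => e (m + 2)) a ha x0 x1
  have a3 := hasSum_aux (fun z => ind (X1 P z.1 z.2)) (fun _ => 0) a ha x0 x1
  have a4 := hasSum_aux (fun z => ind (T1 P z.1 z.2)) (fun m => e (m + 1) + e (m - 1)) a ha t0 t1
  have a5 := hasSum_aux (fun z => ind (X1 P z.1 z.2)) (fun m => e (m + 1) + e (m - 1)) a ha x0 x1
  have a7 := hasSum_aux (fun z => ind (X1 P z.1 z.2)) (fun m => e (m + 2) + e (m - 2) + e m) a ha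
    x0 x1
  have a8 := hasSum_aux (fun z => ind (T1 P z.1 z.2)) (fun m => e m) a ha t0 t1
  have key : ∀ x y u v : ℝ, BL P b a = x → ZL P a = y →
      ∑' K, (∑ m, (ind (X1 P (K - e (m + 1)) m) + ind (X1 P (K - e (m - 1)) m) +
        ind (X1 P (K - (e (m + 2) + e (m - 2))) m) + ind (T1 P K m))) * b K ^ 2 = u →
      ∑' K, ((13 / 50 * s + 1 / 2) * ∑ m, (ind (X1 P (K - e (m - 2)) m) +
          ind (X1 P (K - e (m + 2)) m)) +
        (13 / 50 * s + 18 / 25) * ∑ m, ind (X1 P K m) +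
        (13 / 50 * s + 3 / 10) * ∑ m, ind (T1 P (K - (e (m + 1) + e (m - 1))) m) +
        1 * ∑ m, ind (X1 P (K - (e (m + 1) + e (m - 1))) m) +
        25 / 72 * ∑ m, ind (X1 P (K - (e (m + 2) + e (m - 2) + e m)) m) +
        5 / 6 * ∑ m, ind (T1 P (K - e m) m)) * a K ^ 2 = v →
      -(25 / 26 * s * u) - v ≤ s * x + y →
      -(25 / 26 * s * ∑' K, (∑ m, (ind (X1 P (K - e (m + 1)) m) + ind (X1 P (K - e (m - 1)) m) +
        ind (X1 P (K - (e (m + 2) + e (m - 2))) m) + ind (T1 P K m))) * b K ^ 2) -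
      ∑' K, ((13 / 50 * s + 1 / 2) * ∑ m, (ind (X1 P (K - e (m - 2)) m) +
          ind (X1 P (K - e (m + 2)) m)) +
        (13 / 50 * s + 18 / 25) * ∑ m, ind (X1 P K m) +
        (13 / 50 * s + 3 / 10) * ∑ m, ind (T1 P (K - (e (m + 1) + e (m - 1))) m) +
        1 * ∑ m, ind (X1 P (K - (e (m + 1) + e (m - 1))) m) +
        25 / 72 * ∑ m, ind (X1 P (K - (e (m + 2) + e (m - 2) + e m)) m) +
        5 / 6 * ∑ m, ind (T1 P (K - e m) m)) * a K ^ 2 ≤ s * BL P b a + ZL P a := by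
    intro x y u v e1 e2 e3 e4 h
    rw [e1, e2, e3, e4]
    exact h
  refine key _ _ _ _
    (collect (((s1.add s2).add s3).add s4) (fun z => ?_))
    (collect (((s5.add s6).add s7).add s8) (fun z => ?_))
    (collect (((b1.add b2).add b3).add b4) (fun K => ?_))
    (collect ((((((a1.add a2).mul_left (13 / 50 * s + 1 / 2)).add
        (a3.mul_left (13 / 50 * s + 18 / 25))).add
        (a4.mul_left (13 / 50 * s + 3 / 10))).add
        (a5.mul_left 1)).add
        (a7.mul_left (25 / 72)) |>.add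
        (a8.mul_left (5 / 6))) (fun K => ?_)) ?_
  · simp only [add_zero, add_assoc]
    ring
  · simp only [add_zero, add_assoc]
    ring
  · simp only [Finset.sum_add_distrib, sub_zero]
    ring
  · simp only [Finset.sum_add_distrib, sub_zero]
    ring
  · have j1 := mul_le_mul_of_nonneg_left i1 hs
    have j2 := mul_le_mul_of_nonneg_left i2 hs
    have j3 := mul_le_mul_of_nonneg_left i3 hs
    have j4 := mul_le_mul_of_nonneg_left i4 hs
    linarith [j1, j2, j3, j4, i5, i6, i7, i8]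

end Pool.Agent.Helper8.PN
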